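import Pool.Agent.Helper99.LZ.Goals

/-!
PROJECT C2 (MP_2b0227_gt): packet MT-ID, the cross terms vanish.
-/

namespace Pool.Agent.Helper67.LZ

open Finset Pool.Agent.Helper99.LZ

theorem tele (f : ℤ → ℝ) (a b : ℤ) (h : a ≤ b + 1) :
    ∑ i ∈ Icc a b, (f (i + 1) - f i) = f (b + 1) - f a := by
  obtain ⟨N, hN⟩ := Int.eq_ofNat_of_zero_le (by omega : 0 ≤ b + 1 - a)
  induction N generalizing b with
  | zero =>
    have : b + 1 = a := by simpa [sub_eq_zero] using hN
    rw [this, Icc_eq_empty (by omega)]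
    simp
  | succ N ih =>
    have h1 : Icc a b = insert b (Icc a (b - 1)) := by
      ext x
      simp only [mem_Icc, mem_insert]
      omega
    rw [h1, sum_insert (by simp), ih (b - 1) (by push_cast at hN; omega)
      (by push_cast at hN; omega)]
    rw [sub_add_cancel]
    ring

section aux

variable {T : Pr} {a b : ℤ} {m : ℤ → ℤ → ℝ} {opt : ℤ → Prop} {ζ : ℤ → ℤ → ℝ}
  {xN xI nN nI : ℤ → ℝ}

theorem Am_succ (i : ℤ) (hi : i ∈ Icc a b) :
    Am a b m ζ (i + 1) = Am a b m ζ i + ∑ i' ∈ Icc a b, m i i' * ζ i i' := by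
  unfold Am
  have : ∑ i' ∈ Icc a b, m i i' * ζ i i' =
      ∑ k ∈ Icc a b, if k = i then ∑ i' ∈ Icc a b, m k i' * ζ k i' else 0 := by
    rw [sum_ite_eq' (Icc a b) i]
    rw [if_pos hi]
  rw [this, ← sum_add_distrib]
  refine sum_congr rfl fun k _ => ?_
  rcases lt_trichotomy k i with h | h | h
  · rw [if_neg (by omega : ¬ k = i), add_zero]
    exact sum_congr rfl fun i' _ => by rw [if_pos (by omega : k < i + 1), if_pos h]
  · subst h
    rw [if_pos rfl]
    have e : ∑ i' ∈ Icc a b, (if k < k then m k i' * ζ k i' else 0) = 0 :=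
      sum_eq_zero fun _ _ => if_neg (by omega)
    rw [e, zero_add]
    exact sum_congr rfl fun i' _ => by rw [if_pos (by omega : k < k + 1)]
  · rw [if_neg (by omega : ¬ k = i), add_zero]
    exact sum_congr rfl fun i' _ => by
      rw [if_neg (by omega : ¬ k < i + 1), if_neg (by omega : ¬ k < i)]

theorem Bm_succ (i' : ℤ) (hi : i' ∈ Icc a b) :
    Bm a b m ζ i' = Bm a b m ζ (i' - 1) + ∑ i ∈ Icc a b, m i i' * ζ i i' := by
  unfold Bm
  rw [sum_comm, sum_comm (f := fun i k => if k ≤ i' - 1 then m i k * ζ i k else 0)]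
  have : ∑ i ∈ Icc a b, m i i' * ζ i i' =
      ∑ k ∈ Icc a b, if k = i' then ∑ i ∈ Icc a b, m i k * ζ i k else 0 := by
    rw [sum_ite_eq' (Icc a b) i']
    rw [if_pos hi]
  rw [this, ← sum_add_distrib]
  refine sum_congr rfl fun k _ => ?_
  rcases lt_trichotomy k i' with h | h | h
  · rw [if_neg (by omega : ¬ k = i'), add_zero]
    exact sum_congr rfl fun i _ => by rw [if_pos (by omega : k ≤ i'), if_pos (by omega)]
  · subst h
    rw [if_pos rfl]
    have e : ∑ i ∈ Icc a b, (if k ≤ k - 1 then m i k * ζ i k else 0) = 0 :=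
      sum_eq_zero fun _ _ => if_neg (by omega)
    rw [e, zero_add]
    exact sum_congr rfl fun i _ => by rw [if_pos (le_refl k)]
  · rw [if_neg (by omega : ¬ k = i'), add_zero]
    exact sum_congr rfl fun i _ => by
      rw [if_neg (by omega : ¬ k ≤ i'), if_neg (by omega : ¬ k ≤ i' - 1)]

theorem Am_a : Am a b m ζ a = 0 := by
  unfold Am
  refine sum_eq_zero fun i hi => sum_eq_zero fun i' _ => ?_
  rw [mem_Icc] at hi
  rw [if_neg (by omega)]

theorem Am_b : Am a b m ζ (b + 1) = ∑ i ∈ Icc a b, ∑ i' ∈ Icc a b, m i i' * ζ i i' := by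
  unfold Am
  refine sum_congr rfl fun i hi => sum_congr rfl fun i' _ => ?_
  rw [mem_Icc] at hi
  rw [if_pos (by omega)]

theorem Bm_a : Bm a b m ζ (a - 1) = 0 := by
  unfold Bm
  refine sum_eq_zero fun i _ => sum_eq_zero fun i' hi => ?_
  rw [mem_Icc] at hi
  rw [if_neg (by omega)]

theorem Bm_b : Bm a b m ζ b = ∑ i ∈ Icc a b, ∑ i' ∈ Icc a b, m i i' * ζ i i' := by
  unfold Bm
  refine sum_congr rfl fun i _ => sum_congr rfl fun i' hi => ?_
  rw [mem_Icc] at hi
  rw [if_pos (by omega)]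

theorem sum_xc (hc : Cpl T a b m) (hp : Par T a b m opt ζ xN xI nN nI) (i : ℤ)
    (hi : i ∈ Icc a b) : ∑ i' ∈ Icc a b, m i i' * xc xN xI i i' = Am a b m ζ i := by
  rw [← hp.blkA i, ← hc.row i]
  have : ∀ i' ∈ Icc a b, m i i' * xc xN xI i i' =
      m i i' * xN i + (if i' = i then m i i * (xI i - xN i) else 0) := by
    intro i' _
    unfold xc
    by_cases h : i = i'
    · subst h; simp; ring
    · rw [if_neg h, if_neg (Ne.symm h)]; ring
  rw [sum_congr rfl this, sum_add_distrib, sum_ite_eq' (Icc a b) i, if_pos hi, ← sum_mul]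
  ring

theorem sum_nc (hc : Cpl T a b m) (hp : Par T a b m opt ζ xN xI nN nI) (i' : ℤ)
    (hi : i' ∈ Icc a b) : ∑ i ∈ Icc a b, m i i' * nc nN nI i i' = Bm a b m ζ i' := by
  rw [← hp.blkB i', ← hc.col i']
  have : ∀ i ∈ Icc a b, m i i' * nc nN nI i i' =
      m i i' * nN i' + (if i = i' then m i' i' * (nI i' - nN i') else 0) := by
    intro i _
    unfold nc
    by_cases h : i = i'
    · subst h; simp; ring
    · rw [if_neg h, if_neg h]; ring
  rw [sum_congr rfl this, sum_add_distrib, sum_ite_eq' (Icc a b) i', if_pos hi, ← sum_mul]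
  ring

theorem oc_inst (hc : Cpl T a b m) (hp : Par T a b m opt ζ xN xI nN nI) (i : ℤ)
    (h : m i i ≠ 0) : oc ζ xN xI nN nI i i = 0 := by
  have h1 : T.h i < 0 := by
    rw [hc.inst] at h
    unfold Pr.al at h
    by_contra h2
    exact h (max_eq_left (by linarith))
  unfold oc xc nc
  rw [if_pos rfl, if_pos rfl, hp.om i h1]
  ring

theorem sumP (hc : Cpl T a b m) (hp : Par T a b m opt ζ xN xI nN nI) (hab : a ≤ b + 1)
    (f : ℤ → ℝ) : ∑ i ∈ Icc a b, ∑ i' ∈ Icc a b, m i i' *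
      (-xc xN xI i i' * f i + (ζ i i' + xc xN xI i i') * f (i + 1)) = 0 := by
  have h1 : ∀ i ∈ Icc a b, ∑ i' ∈ Icc a b, m i i' *
      (-xc xN xI i i' * f i + (ζ i i' + xc xN xI i i') * f (i + 1)) =
      Am a b m ζ (i + 1) * f (i + 1) - Am a b m ζ i * f i := by
    intro i hi
    rw [Am_succ i hi, ← sum_xc hc hp i hi, add_mul, sum_mul, sum_mul, sum_mul,
      ← sum_add_distrib, ← sum_sub_distrib]
    exact sum_congr rfl fun i' _ => by ring
  rw [sum_congr rfl h1, tele (fun i => Am a b m ζ i * f i) a b hab, Am_a, Am_b, hp.tot]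
  ring

theorem sumQ (hc : Cpl T a b m) (hp : Par T a b m opt ζ xN xI nN nI) (hab : a ≤ b + 1)
    (f : ℤ → ℝ) : ∑ i ∈ Icc a b, ∑ i' ∈ Icc a b, m i i' *
      ((ζ i i' - nc nN nI i i') * f i' + nc nN nI i i' * f (i' + 1)) = 0 := by
  rw [sum_comm]
  have h1 : ∀ i' ∈ Icc a b, ∑ i ∈ Icc a b, m i i' *
      ((ζ i i' - nc nN nI i i') * f i' + nc nN nI i i' * f (i' + 1)) =
      Bm a b m ζ (i' + 1 - 1) * f (i' + 1) - Bm a b m ζ (i' - 1) * f i' := by
    intro i' hi
    have e : Bm a b m ζ (i' - 1) = Bm a b m ζ i' - ∑ i ∈ Icc a b, m i i' * ζ i i' := by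
      rw [Bm_succ i' hi]; ring
    rw [e, add_sub_cancel_right, ← sum_nc hc hp i' hi, sub_mul, sum_mul, sum_mul, sum_mul,
      ← sum_sub_distrib, ← sum_sub_distrib]
    exact sum_congr rfl fun i _ => by ring
  rw [sum_congr rfl h1, tele (fun i => Bm a b m ζ (i - 1) * f i) a b hab, Bm_a,
    add_sub_cancel_right, Bm_b, hp.tot]
  ring

end aux

theorem idd : StmtID := by
  intro V _ _ S T n a b m opt ζ xN xI nN nI hS hT hc hp v
  have key : ∀ i ∈ Icc a b, ∀ i' ∈ Icc a b, m i i' *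
      S.col (n - 2 - i) (n - i') (v, 0) (S.sv ζ xN xI nN nI i i') =
      m i i' * (-xc xN xI i i' * S.P (n - 1 - i) v
        + (ζ i i' + xc xN xI i i') * S.P (n - 1 - (i + 1)) v)
      - m i i' * ((ζ i i' - nc nN nI i i') * S.Q (n - i') v
        + nc nN nI i i' * S.Q (n - (i' + 1)) v) := by
    intro i _ i' _
    by_cases h0 : m i i' = 0
    · rw [h0]; ring
    have hle := (hc.supp i i' h0).2.1
    have hX : S.D (n - 2 - i) (n - i') v S.X = S.P (n - 1 - i) v - S.Q (n - i') v := by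
      rw [hS.sym, hS.DX, show n - 2 - i + 1 = n - 1 - i by ring]
    have hY : S.D (n - 2 - i) (n - i') v S.Y = S.P (n - 2 - i) v - S.Q (n - i' - 1) v := by
      rw [hS.sym, hS.DY]
    have e1 : n - 1 - (i + 1) = n - 2 - i := by ring
    have e2 : n - (i' + 1) = n - i' - 1 := by ring
    rw [e1, e2]
    unfold Ctx.col
    split_ifs with h
    · unfold Ctx.full Ctx.sv
      simp only [LinearMap.mk₂_apply, map_add, map_smul, smul_eq_mul, hX, hY]
      unfold oc
      ring
    · have hii : i = i' := by omega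
      subst hii
      have hω := oc_inst hc hp i h0
      unfold oc at hω
      unfold Ctx.sv
      simp only [LinearMap.compl₁₂_apply, LinearMap.fst_apply, map_add, map_smul, smul_eq_mul,
        hX, hY]
      have hz : ζ i i = nc nN nI i i - xc xN xI i i := by linarith
      rw [hz]
      ring
  rw [sum_congr rfl fun i hi => sum_congr rfl fun i' hi' => key i hi i' hi']
  simp only [sum_sub_distrib]
  have hab := hT.ab
  have e1 := sumP hc hp (by omega) (fun i => S.P (n - 1 - i) v)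
  have e2 := sumQ hc hp (by omega) (fun i => S.Q (n - i) v)
  rw [e1, e2]
  ring

theorem qc : StmtQC := by
  intro V _ _ S T n a b m opt ζ xN xI nN nI hS hT hc hp
  unfold Quad
  refine sum_congr rfl fun i _ => sum_congr rfl fun i' _ => ?_
  by_cases h0 : m i i' = 0
  · rw [h0]; ring
  have hle := (hc.supp i i' h0).2.1
  congr 1
  set p := n - 2 - i with hpd
  set q := n - i' with hqd
  have dXX : S.D p q S.X S.X = S.pr.H (p + 2) q := by
    rw [hS.DX, hS.PX, show p + 1 + 1 = p + 2 by ring]; rfl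
  have dXY : S.D p q S.X S.Y = S.pr.H (p + 1) (q - 1) := by
    rw [hS.DX, hS.QY]; rfl
  have dYX : S.D p q S.Y S.X = S.pr.H (p + 1) (q - 1) := by
    rw [hS.sym, dXY]
  have dYY : S.D p q S.Y S.Y = S.pr.H p (q - 2) := by
    rw [hS.DY, hS.QY, show q - 1 - 1 = q - 2 by ring]; rfl
  have wX : S.P p S.X - S.Q q S.X = S.pr.H (p + 1) q := by
    rw [hS.PX]; rfl
  have wY : S.P p S.Y - S.Q q S.Y = S.pr.H p (q - 1) := by
    rw [hS.QY]; rfl
  unfold Pr.W3 Ctx.col
  split_ifs with h
  · have hg : gg S.pr S.G p q = S.g p q := rfl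
    rw [hg, ← wX, ← wY, ← dXX, ← dYY, ← dXY]
    unfold Ctx.full Ctx.sv
    simp only [LinearMap.mk₂_apply, map_add, map_smul, smul_eq_mul, LinearMap.add_apply,
      LinearMap.smul_apply, dXY, dYX]
    ring
  · have hii : i = i' := by omega
    subst hii
    have hω := oc_inst hc hp i h0
    rw [hω]
    unfold Ctx.sv
    simp only [LinearMap.compl₁₂_apply, LinearMap.fst_apply, map_add, map_smul, smul_eq_mul,
      LinearMap.add_apply, LinearMap.smul_apply, dXX, dXY, dYX, dYY]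
    ring

end Pool.Agent.Helper67.LZ
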