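import Pool.Agent.Helper99.LZ.Quad

/-!
PROJECT C2 (MP_2b0227_gt): packet MT-KAP, the row form.
-/

namespace Pool.Agent.Helper67.LZ

open Finset Pool.Agent.Helper99.LZ

theorem ite_eq_mul (c : Prop) [Decidable c] (x : ℝ) :
    (if c then x else 0) = (if c then (1 : ℝ) else 0) * x := by
  split_ifs <;> simp

theorem kap : StmtKAP := by
  intro n a b m ζ xN xI nN nI j j' hjj hm ho
  unfold rowQ Quad
  refine sum_congr rfl fun i _ => sum_congr rfl fun i' _ => ?_
  by_cases h0 : m i i' = 0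
  · rw [h0, zero_mul, zero_mul]
  have hle := hm i i' h0
  congr 1
  have hω : i = i' → oc ζ xN xI nN nI i i' = 0 := by
    rintro rfl
    exact ho i h0
  have hoc : oc ζ xN xI nN nI i i' = ζ i i' + xc xN xI i i' - nc nN nI i i' := rfl
  set ξ := xc xN xI i i' with hξ
  set ν := nc nN nI i i' with hν
  set ω := oc ζ xN xI nN nI i i' with hωd
  set z := ζ i i' with hz
  have hH : ∀ p q : ℤ, (Pr.unit j j').H p q =
      (if j ≤ p then (1 : ℝ) else 0) - (if j' ≤ q then (1 : ℝ) else 0) := fun p q => rfl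
  have A2 : (if j ≤ n - 2 - i + 2 then (1 : ℝ) else 0) =
      (if i ≤ n - 2 - j then (1 : ℝ) else 0) + (if i = n - 1 - j then (1 : ℝ) else 0)
        + (if i = n - j then (1 : ℝ) else 0) := by
    split_ifs <;> first | (exfalso; omega) | norm_num
  have A1 : (if j ≤ n - 2 - i + 1 then (1 : ℝ) else 0) =
      (if i ≤ n - 2 - j then (1 : ℝ) else 0) + (if i = n - 1 - j then (1 : ℝ) else 0) := by
    split_ifs <;> first | (exfalso; omega) | norm_num
  have A0 : (if j ≤ n - 2 - i then (1 : ℝ) else 0) = (if i ≤ n - 2 - j then (1 : ℝ) else 0) := by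
    split_ifs <;> first | (exfalso; omega) | norm_num
  have B0 : (if j' ≤ n - i' then (1 : ℝ) else 0) = (if i' ≤ n - j' then (1 : ℝ) else 0) := by
    split_ifs <;> first | (exfalso; omega) | norm_num
  have B1 : (if j' ≤ n - i' - 1 then (1 : ℝ) else 0) =
      (if i' ≤ n - j' then (1 : ℝ) else 0) - (if i' = n - j' then (1 : ℝ) else 0) := by
    split_ifs <;> first | (exfalso; omega) | norm_num
  have B2 : (if j' ≤ n - i' - 2 then (1 : ℝ) else 0) =
      (if i' ≤ n - j' then (1 : ℝ) else 0) - (if i' = n - j' then (1 : ℝ) else 0)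
        - (if i' = n - j' - 1 then (1 : ℝ) else 0) := by
    split_ifs <;> first | (exfalso; omega) | norm_num
  -- the entry (W, W)
  have hg : ω * ω * gg (Pr.unit j j') (Pr.unit j j').hp (n - 2 - i) (n - i') =
      ω ^ 2 * ((if i ≤ n - 2 - j then (1 : ℝ) else 0) - (if i' ≤ n - j' then (1 : ℝ) else 0))
        + (if j = j' ∧ i' = i + 1 ∧ i' = n - j then ω ^ 2 else 0) := by
    rcases lt_trichotomy i' (i + 1) with h | h | h
    · have h1 : i = i' := by omega
      rw [hω h1, if_neg (by omega : ¬ (j = j' ∧ i' = i + 1 ∧ i' = n - j))]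
      ring
    · have h1 : ¬ (n - i' ≤ n - 2 - i) := by omega
      unfold gg
      rw [if_neg h1]
      unfold Pr.hp Pr.h
      rw [hH]
      have e1 : max (0 : ℝ) ((if j ≤ n - i' - 1 then (1 : ℝ) else 0)
          - (if j' ≤ n - i' then (1 : ℝ) else 0)) =
          (if i ≤ n - 2 - j then (1 : ℝ) else 0) - (if i' ≤ n - j' then (1 : ℝ) else 0)
          + (if j = j' ∧ i' = i + 1 ∧ i' = n - j then 1 else 0) := by
        split_ifs <;> first | (exfalso; omega) | norm_num
      rw [e1, ite_eq_mul (j = j' ∧ i' = i + 1 ∧ i' = n - j) (ω ^ 2)]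
      ring
    · unfold gg
      rw [if_pos (by omega : n - i' ≤ n - 2 - i), hH, A0, B0,
        if_neg (by omega : ¬ (j = j' ∧ i' = i + 1 ∧ i' = n - j))]
      ring
  unfold Pr.W3
  rw [hg, hH, hH, hH, hH, hH, A2, A1, A0, B0, B1, B2]
  rw [ite_eq_mul (i = n - j) (ξ ^ 2), ite_eq_mul (i = n - 1 - j) (ξ ^ 2 + 2 * ξ * z),
    ite_eq_mul (i' = n - j' - 1) (ν ^ 2), ite_eq_mul (i' = n - j') (ν ^ 2 - 2 * ν * z)]
  rw [hoc]
  ring

end Pool.Agent.Helper67.LZ
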